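import Mathlib
import Pool.Agent.H379R3.Reg

/-! # Flatness of Frobenius on regular local rings, in equational form (Kunz) -/

set_option autoImplicit false

namespace Pool.Agent.Q122.FPR

open IsLocalRing

universe u

/-- `q` is a Frobenius exponent for `R`: `x ↦ x ^ q` is a ring homomorphism. -/
def IsFrob (R : Type u) [CommRing R] (q : ℕ) : Prop :=
  0 < q ∧ ∀ x y : R, (x + y) ^ q = x ^ q + y ^ q

/-- The ring homomorphism `x ↦ x ^ q`. -/
def frobHom {R : Type u} [CommRing R] {q : ℕ} (h : IsFrob R q) : R →+* R where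
  toFun x := x ^ q
  map_one' := one_pow q
  map_mul' x y := mul_pow x y q
  map_zero' := zero_pow h.1.ne'
  map_add' x y := h.2 x y

lemma frobHom_apply {R : Type u} [CommRing R] {q : ℕ} (h : IsFrob R q) (x : R) :
    frobHom h x = x ^ q := rfl

lemma IsFrob.of_surjective {R S : Type u} [CommRing R] [CommRing S] {q : ℕ} (h : IsFrob R q)
    (φ : R →+* S) (hφ : Function.Surjective φ) : IsFrob S q := by
  refine ⟨h.1, fun x y => ?_⟩
  obtain ⟨x, rfl⟩ := hφ x
  obtain ⟨y, rfl⟩ := hφ y
  rw [← map_add, ← map_pow, h.2, map_add, map_pow, map_pow]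

lemma sum_pow_frob {R : Type u} [CommRing R] {q : ℕ} (h : IsFrob R q) {ι : Type} (s : Finset ι)
    (x : ι → R) : (∑ i ∈ s, x i) ^ q = ∑ i ∈ s, x i ^ q :=
  map_sum (frobHom h) x s

lemma sub_pow_frob {R : Type u} [CommRing R] {q : ℕ} (h : IsFrob R q) (x y : R) :
    (x - y) ^ q = x ^ q - y ^ q := map_sub (frobHom h) x y

section Triv

variable {R : Type u} [CommRing R] {ι : Type} [Fintype ι]

/-- The relations `∑ f_i ^ q x_i = 0`. -/
def Rel (q : ℕ) (f : ι → R) : Submodule R (ι → R) where
  carrier := {x | ∑ i, f i ^ q * x i = 0}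
  add_mem' {x y} hx hy := by
    simp only [Set.mem_ofPred_eq, Pi.add_apply, mul_add, Finset.sum_add_distrib] at *
    rw [hx, hy, add_zero]
  zero_mem' := by simp
  smul_mem' c x hx := by
    simp only [Set.mem_ofPred_eq, Pi.smul_apply, smul_eq_mul] at *
    have : ∑ i, f i ^ q * (c * x i) = c * ∑ i, f i ^ q * x i := by
      rw [Finset.mul_sum]
      exact Finset.sum_congr rfl fun i _ => by ring
    rw [this, hx, mul_zero]

lemma mem_Rel {q : ℕ} {f : ι → R} {x : ι → R} : x ∈ Rel q f ↔ ∑ i, f i ^ q * x i = 0 := Iff.rfl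

/-- The span of the vectors `a ^ q` with `∑ f_i a_i ∈ I`. -/
def Triv (q : ℕ) (I : Ideal R) (f : ι → R) : Submodule R (ι → R) :=
  Submodule.span R {v | ∃ a : ι → R, ∑ i, f i * a i ∈ I ∧ v = fun i => a i ^ q}

/-- Equational flatness of the Frobenius. -/
def EqFlat (R : Type u) [CommRing R] (q : ℕ) : Prop :=
  ∀ (ι : Type) [Fintype ι] (f : ι → R), Rel q f ≤ Triv q ⊥ f

lemma Triv_mono {q : ℕ} {I J : Ideal R} (h : I ≤ J) (f : ι → R) : Triv q I f ≤ Triv q J f := by
  apply Submodule.span_mono
  rintro _ ⟨a, ha, rfl⟩
  exact ⟨a, h ha, rfl⟩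

lemma sum_mem_of_Triv {q : ℕ} (h : IsFrob R q) {t : R} {f : ι → R} {x : ι → R}
    (hx : x ∈ Triv q (Ideal.span {t}) f) : ∑ i, f i ^ q * x i ∈ Ideal.span {t ^ q} := by
  induction hx using Submodule.span_induction with
  | mem x hx =>
    obtain ⟨a, ha, rfl⟩ := hx
    obtain ⟨c, hc⟩ := Ideal.mem_span_singleton'.1 ha
    have : ∑ i, f i ^ q * a i ^ q = c ^ q * t ^ q := by
      rw [← mul_pow, hc, sum_pow_frob h]
      exact Finset.sum_congr rfl fun i _ => by ring
    rw [this]
    exact Ideal.mul_mem_left _ _ (Ideal.mem_span_singleton_self _)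
  | zero => simp
  | add x y _ _ hx hy =>
    simp only [Pi.add_apply, mul_add, Finset.sum_add_distrib]
    exact add_mem hx hy
  | smul c x _ hx =>
    have : ∑ i, f i ^ q * (c • x) i = c * ∑ i, f i ^ q * x i := by
      rw [Finset.mul_sum]
      exact Finset.sum_congr rfl fun i _ => by simp; ring
    rw [this]
    exact Ideal.mul_mem_left _ _ hx

end Triv

/-- Lemma L2: if the Frobenius of `B / t` is flat, then relations modulo `t ^ n`, `n ≤ q`, are
trivial modulo `t` and `t ^ n`. -/
lemma rel_mod_pow {B : Type u} [CommRing B] [IsDomain B] {q : ℕ} (hF : IsFrob B q) {t : B}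
    (ht : t ≠ 0) (hflat : EqFlat (B ⧸ Ideal.span {t}) q) {ι : Type} [Fintype ι] (f : ι → B)
    (n : ℕ) (hn : n ≤ q) : ∀ x : ι → B, ∑ i, f i ^ q * x i ∈ Ideal.span {t ^ n} →
      ∃ y ∈ Triv q (Ideal.span {t}) f, ∃ w : ι → B, x = y + t ^ n • w := by
  induction n with
  | zero => exact fun x _ => ⟨0, zero_mem _, x, by simp⟩
  | succ n ih =>
    intro x hx
    have hx' : ∑ i, f i ^ q * x i ∈ Ideal.span {t ^ n} := by
      refine Ideal.span_singleton_le_span_singleton.2 ⟨t, pow_succ t n⟩ hx
    obtain ⟨y, hy, w, rfl⟩ := ih (by omega) x hx'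
    have h1 : ∑ i, f i ^ q * y i ∈ Ideal.span {t ^ (n + 1)} := by
      have := sum_mem_of_Triv hF hy
      exact Ideal.span_singleton_le_span_singleton.2 (pow_dvd_pow t hn) this
    have h2 : t ^ n * ∑ i, f i ^ q * w i ∈ Ideal.span {t ^ (n + 1)} := by
      have h3 : ∑ i, f i ^ q * (y + t ^ n • w) i = ∑ i, f i ^ q * y i +
          t ^ n * ∑ i, f i ^ q * w i := by
        rw [Finset.mul_sum, ← Finset.sum_add_distrib]
        exact Finset.sum_congr rfl fun i _ => by simp; ring
      rw [h3] at hx
      exact (Submodule.add_mem_iff_right _ h1).1 hx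
    obtain ⟨c, hc⟩ := Ideal.mem_span_singleton'.1 h2
    have h4 : ∑ i, f i ^ q * w i = c * t := by
      have : t ^ n * ∑ i, f i ^ q * w i = t ^ n * (c * t) := by
        rw [← hc]; ring
      exact mul_left_cancel₀ (pow_ne_zero _ ht) this
    -- pass to the quotient
    let π := Ideal.Quotient.mk (Ideal.span {t})
    have h5 : (fun i => π (w i)) ∈ Rel q (fun i => π (f i)) := by
      rw [mem_Rel]
      have : ∑ i, π (f i) ^ q * π (w i) = π (∑ i, f i ^ q * w i) := by
        rw [map_sum]
        exact Finset.sum_congr rfl fun i _ => by rw [map_mul, map_pow]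
      rw [this, h4]
      exact Ideal.Quotient.eq_zero_iff_mem.2 (Ideal.mul_mem_left _ _ (Ideal.mem_span_singleton_self t))
    have h6 := hflat ι _ h5
    -- lift
    have h7 : ∀ v ∈ Triv q ⊥ (fun i => π (f i)), ∃ y' ∈ Triv q (Ideal.span {t}) f,
        v = fun i => π (y' i) := by
      intro v hv
      induction hv using Submodule.span_induction with
      | mem v hv =>
        obtain ⟨a, ha, rfl⟩ := hv
        choose b hb using fun i => Ideal.Quotient.mk_surjective (a i)
        refine ⟨fun i => b i ^ q, Submodule.subset_span ⟨b, ?_, rfl⟩, ?_⟩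
        · rw [← Ideal.Quotient.eq_zero_iff_mem, map_sum]
          have : ∑ i, π (f i * b i) = ∑ i, π (f i) * a i := by
            exact Finset.sum_congr rfl fun i _ => by rw [map_mul, ← hb]
          rw [this]
          exact ha
        · funext i
          rw [map_pow, hb]
      | zero => exact ⟨0, zero_mem _, by funext i; simp⟩
      | add u v _ _ hu hv =>
        obtain ⟨u', hu', rfl⟩ := hu
        obtain ⟨v', hv', rfl⟩ := hv
        exact ⟨u' + v', add_mem hu' hv', by funext i; simp⟩
      | smul c v _ hv =>
        obtain ⟨v', hv', rfl⟩ := hv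
        obtain ⟨c, rfl⟩ := Ideal.Quotient.mk_surjective c
        exact ⟨c • v', Submodule.smul_mem _ _ hv', by funext i; simp [π]⟩
    obtain ⟨y', hy', hyw⟩ := h7 _ h6
    have h8 : ∀ i, ∃ u, w i = y' i + t * u := by
      intro i
      have h9 := congrFun hyw i
      have h10 : w i - y' i ∈ Ideal.span {t} := Ideal.Quotient.eq.1 h9
      obtain ⟨u, hu⟩ := Ideal.mem_span_singleton'.1 h10
      exact ⟨u, by linear_combination -hu⟩
    choose u hu using h8
    refine ⟨y + t ^ n • y', add_mem hy (Submodule.smul_mem _ _ hy'), u, ?_⟩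
    funext i
    simp only [Pi.add_apply, Pi.smul_apply, smul_eq_mul, hu]
    ring

/-- Lemma L1: the dévissage. -/
lemma eqFlat_of_quotient {B : Type u} [CommRing B] [IsDomain B] [IsLocalRing B]
    [IsNoetherianRing B] {q : ℕ} (hF : IsFrob B q) {t : B} (ht : t ≠ 0)
    (htm : t ∈ maximalIdeal B) (hflat : EqFlat (B ⧸ Ideal.span {t}) q) : EqFlat B q := by
  have key : ∀ I : Ideal B, ∀ (ι : Type) [Fintype ι] (f : ι → B),
      Ideal.span (Set.range f) = I → Rel q f ≤ Triv q ⊥ f := by
    intro I
    induction I using IsNoetherian.induction with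
    | hgt I ih =>
    intro ι _ f hfI
    apply Submodule.le_of_le_smul_of_le_jacobson_bot (I := maximalIdeal B)
      (IsNoetherian.noetherian _) (IsLocalRing.maximalIdeal_le_jacobson _)
    intro x hx
    rw [mem_Rel] at hx
    obtain ⟨y0, hy0, w, hxw⟩ := rel_mod_pow hF ht hflat f q le_rfl x (by rw [hx]; exact zero_mem _)
    obtain ⟨n, y, g, hg⟩ := Submodule.mem_span_set'.1 hy0
    choose a ha1 ha2 using fun j => (g j).2
    choose c hc using fun j => Ideal.mem_span_singleton'.1 (ha1 j)
    have hx2 : ∀ i, x i = ∑ j, y j * a j i ^ q + t ^ q * w i := by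
      intro i
      rw [hxw, ← hg]
      simp only [Pi.add_apply, Finset.sum_apply, Pi.smul_apply, smul_eq_mul, ha2]
    have hrel : ∑ j, c j ^ q * y j + ∑ i, f i ^ q * w i = 0 := by
      have h1 : t ^ q * (∑ j, c j ^ q * y j + ∑ i, f i ^ q * w i) = 0 := by
        rw [← hx]
        have h2 : ∀ j, t ^ q * (c j ^ q * y j) = ∑ i, f i ^ q * (y j * a j i ^ q) := by
          intro j
          have : t ^ q * (c j ^ q * y j) = (c j * t) ^ q * y j := by ring
          rw [this, hc, sum_pow_frob hF, Finset.sum_mul]
          exact Finset.sum_congr rfl fun i _ => by ring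
        rw [mul_add, Finset.mul_sum, Finset.sum_congr rfl fun j _ => h2 j, Finset.sum_comm,
          Finset.mul_sum, ← Finset.sum_add_distrib]
        refine Finset.sum_congr rfl fun i _ => ?_
        rw [hx2 i, mul_add, Finset.mul_sum]
        ring
      exact (mul_eq_zero.1 h1).resolve_left (pow_ne_zero _ ht)
    by_cases hcI : ∀ j, c j ∈ I
    · -- case A
      have hd : ∀ j, ∃ d : ι → B, ∑ i, f i * d i = c j := by
        intro j
        have := hcI j
        rw [← hfI, Ideal.mem_span_range_iff_exists_fun] at this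
        obtain ⟨d, hd⟩ := this
        exact ⟨d, by rw [← hd]; exact Finset.sum_congr rfl fun i _ => mul_comm _ _⟩
      choose d hd using hd
      let x' : ι → B := fun i => w i + ∑ j, d j i ^ q * y j
      have hx' : x' ∈ Rel q f := by
        rw [mem_Rel]
        have h1 : ∀ j, c j ^ q * y j = ∑ i, f i ^ q * (d j i ^ q * y j) := by
          intro j
          rw [← hd j, sum_pow_frob hF, Finset.sum_mul]
          exact Finset.sum_congr rfl fun i _ => by ring
        rw [Finset.sum_congr rfl fun j _ => h1 j, Finset.sum_comm, add_comm,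
          ← Finset.sum_add_distrib] at hrel
        rw [← hrel]
        refine Finset.sum_congr rfl fun i _ => ?_
        simp only [x', mul_add, Finset.mul_sum]
      have hsum : x = t ^ q • x' + ∑ j, y j • (fun i => (a j i - t * d j i) ^ q) := by
        funext i
        simp only [Pi.add_apply, Pi.smul_apply, smul_eq_mul, Finset.sum_apply, x',
          sub_pow_frob hF, mul_pow]
        rw [hx2 i, mul_add, Finset.mul_sum]
        have : ∑ j, y j * (a j i ^ q - t ^ q * d j i ^ q) = ∑ j, y j * a j i ^ q -
            ∑ j, t ^ q * (d j i ^ q * y j) := by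
          rw [← Finset.sum_sub_distrib]
          exact Finset.sum_congr rfl fun j _ => by ring
        rw [this]
        ring
      rw [hsum]
      refine add_mem (Submodule.mem_sup_right ?_) (Submodule.mem_sup_left ?_)
      · exact Submodule.smul_mem_smul (Ideal.pow_mem_of_mem _ htm _ hF.1) hx'
      · refine Submodule.sum_mem _ fun j _ => Submodule.smul_mem _ _ (Submodule.subset_span ?_)
        refine ⟨fun i => a j i - t * d j i, ?_, rfl⟩
        have : ∑ i, f i * (a j i - t * d j i) = ∑ i, f i * a j i - t * ∑ i, f i * d j i := by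
          rw [Finset.mul_sum, ← Finset.sum_sub_distrib]
          exact Finset.sum_congr rfl fun i _ => by ring
        rw [this, ← hc, hd]
        ring_nf
        exact zero_mem _
    · -- case B
      push Not at hcI
      obtain ⟨j0, hj0⟩ := hcI
      let F : ι ⊕ Fin n → B := Sum.elim f c
      have hlt : I < Ideal.span (Set.range F) := by
        refine lt_of_le_of_ne ?_ ?_
        · rw [← hfI]
          apply Ideal.span_mono
          rintro _ ⟨i, rfl⟩
          exact ⟨Sum.inl i, rfl⟩
        · intro heq
          apply hj0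
          rw [heq]
          exact Ideal.subset_span ⟨Sum.inr j0, rfl⟩
      have hmem : (Sum.elim w y : ι ⊕ Fin n → B) ∈ Rel q F := by
        rw [mem_Rel, Fintype.sum_sum_type]
        simp only [F, Sum.elim_inl, Sum.elim_inr]
        rw [add_comm]
        exact hrel
      have h1 := ih _ hlt (ι ⊕ Fin n) F rfl hmem
      let Ψ : (ι ⊕ Fin n → B) →ₗ[B] (ι → B) :=
        { toFun := fun v i => t ^ q * v (Sum.inl i) + ∑ j, a j i ^ q * v (Sum.inr j)
          map_add' := by
            intro u v
            funext i
            simp only [Pi.add_apply, mul_add, Finset.sum_add_distrib]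
            ring
          map_smul' := by
            intro r v
            funext i
            simp only [Pi.smul_apply, smul_eq_mul, RingHom.id_apply, mul_add, Finset.mul_sum]
            congr 1
            · ring
            · exact Finset.sum_congr rfl fun j _ => by ring }
      have hΨ : Ψ (Sum.elim w y) = x := by
        funext i
        show t ^ q * w i + ∑ j, a j i ^ q * y j = x i
        rw [hx2 i, add_comm]
        congr 1
        exact Finset.sum_congr rfl fun j _ => mul_comm _ _
      have h2 : Triv q ⊥ F ≤ (Triv q ⊥ f).comap Ψ := by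
        apply Submodule.span_le.2
        rintro _ ⟨b, hb, rfl⟩
        apply Submodule.subset_span
        refine ⟨fun i => t * b (Sum.inl i) + ∑ j, a j i * b (Sum.inr j), ?_, ?_⟩
        · have hb' : ∑ i, f i * b (Sum.inl i) + ∑ j, c j * b (Sum.inr j) = 0 := by
            have h3 : ∑ k, F k * b k = 0 := hb
            rw [Fintype.sum_sum_type] at h3
            exact h3
          have h4 : ∑ i, f i * (t * b (Sum.inl i) + ∑ j, a j i * b (Sum.inr j)) =
              t * (∑ i, f i * b (Sum.inl i) + ∑ j, c j * b (Sum.inr j)) := by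
            have h5 : ∀ j, t * (c j * b (Sum.inr j)) = ∑ i, f i * (a j i * b (Sum.inr j)) := by
              intro j
              have : t * (c j * b (Sum.inr j)) = (c j * t) * b (Sum.inr j) := by ring
              rw [this, hc, Finset.sum_mul]
              exact Finset.sum_congr rfl fun i _ => by ring
            rw [mul_add, Finset.mul_sum, Finset.mul_sum, Finset.sum_congr rfl fun j _ => h5 j,
              Finset.sum_comm, ← Finset.sum_add_distrib]
            refine Finset.sum_congr rfl fun i _ => ?_
            rw [mul_add, Finset.mul_sum]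
            ring
          show _ ∈ (⊥ : Ideal B)
          rw [h4, hb', mul_zero]
          exact zero_mem _
        · funext i
          show t ^ q * b (Sum.inl i) ^ q + ∑ j, a j i ^ q * b (Sum.inr j) ^ q = _
          rw [hF.2, sum_pow_frob hF]
          simp only [mul_pow]
      have h3 := h2 h1
      rw [Submodule.mem_comap, hΨ] at h3
      exact Submodule.mem_sup_left h3
  intro ι _ f
  exact key _ ι f rfl

/-- fields -/
lemma eqFlat_of_isField {B : Type u} [CommRing B] (hB : IsField B) {q : ℕ} (hF : IsFrob B q) :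
    EqFlat B q := by
  classical
  intro ι _ f x hx
  rw [mem_Rel] at hx
  by_cases hf : ∃ i0, f i0 ≠ 0
  · obtain ⟨i0, hi0⟩ := hf
    obtain ⟨g, hg⟩ := hB.mul_inv_cancel hi0
    have hx0 : x = ∑ i ∈ Finset.univ.erase i0, x i • (fun k => (if k = i then (1 : B) else
        if k = i0 then - (f i * g) else 0) ^ q) := by
      funext k
      simp only [Finset.sum_apply, Pi.smul_apply, smul_eq_mul]
      by_cases hk : k = i0
      · subst hk
        have h1 : ∑ i ∈ Finset.univ.erase k, x i * (if k = i then (1 : B) else
            if k = k then - (f i * g) else 0) ^ q =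
            ∑ i ∈ Finset.univ.erase k, - (g ^ q * (f i ^ q * x i)) := by
          refine Finset.sum_congr rfl fun i hi => ?_
          rw [if_neg (Finset.ne_of_mem_erase hi).symm, if_pos rfl]
          have h2 : (-(f i * g)) ^ q = - (f i * g) ^ q := map_neg (frobHom hF) _
          rw [h2]
          ring
        rw [h1, Finset.sum_neg_distrib, ← Finset.mul_sum]
        rw [← Finset.add_sum_erase _ _ (Finset.mem_univ k)] at hx
        have h3 : ∑ i ∈ Finset.univ.erase k, f i ^ q * x i = - (f k ^ q * x k) := by
          linear_combination hx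
        rw [h3]
        have h4 : f k ^ q * g ^ q = 1 := by rw [← mul_pow, hg, one_pow]
        linear_combination (- x k) * h4
      · rw [Finset.sum_eq_single k]
        · simp
        · intro b _ hb
          rw [if_neg (Ne.symm hb), if_neg hk, zero_pow hF.1.ne', mul_zero]
        · intro h
          exact absurd (Finset.mem_erase.2 ⟨hk, Finset.mem_univ k⟩) h
    rw [hx0]
    refine Submodule.sum_mem _ fun i hi => Submodule.smul_mem _ _ (Submodule.subset_span ?_)
    refine ⟨fun k => if k = i then (1 : B) else if k = i0 then - (f i * g) else 0, ?_, rfl⟩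
    have hii : i ≠ i0 := Finset.ne_of_mem_erase hi
    rw [← Finset.add_sum_erase _ _ (Finset.mem_univ i),
      ← Finset.add_sum_erase _ _ (Finset.mem_erase.2 ⟨hii.symm, Finset.mem_univ i0⟩)]
    rw [Finset.sum_eq_zero]
    · beta_reduce
      rw [if_pos rfl, if_neg hii.symm, if_pos rfl]
      have : f i * 1 + (f i0 * -(f i * g) + 0) = 0 := by linear_combination (- f i) * hg
      rw [this]
      exact zero_mem _
    · intro k hk
      beta_reduce
      rw [if_neg (Finset.ne_of_mem_erase (Finset.mem_of_mem_erase hk)),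
        if_neg (Finset.ne_of_mem_erase hk), mul_zero]
  · push Not at hf
    have : x = ∑ i, x i • (fun k => (if k = i then (1 : B) else 0) ^ q) := by
      funext k
      simp only [Finset.sum_apply, Pi.smul_apply, smul_eq_mul]
      rw [Finset.sum_eq_single k]
      · simp
      · intro b _ hb
        rw [if_neg (Ne.symm hb), zero_pow hF.1.ne', mul_zero]
      · intro h
        exact absurd (Finset.mem_univ k) h
    rw [this]
    refine Submodule.sum_mem _ fun i _ => Submodule.smul_mem _ _ (Submodule.subset_span ?_)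
    refine ⟨fun k => if k = i then 1 else 0, ?_, rfl⟩
    simp [hf]

/-- **Kunz**: the Frobenius of a regular local ring is flat. -/
theorem eqFlat_of_regular_aux (d : ℕ) : ∀ (B : Type u) [CommRing B] [IsRegularLocalRing B]
    {q : ℕ}, IsFrob B q → ringKrullDim B = (d : ℕ) → EqFlat B q := by
  induction d with
  | zero =>
    intro B _ _ q hF h
    have h1 := H379R3.dim_zero_maximalIdeal_eq_bot h
    exact eqFlat_of_isField (isField_iff_maximalIdeal_eq.2 h1) hF
  | succ d ih =>
    intro B _ _ q hF h
    have hdom := H379R3.isDomain B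
    have hmb : maximalIdeal B ≠ ⊥ := by
      intro h0
      have h2 : IsField B := isField_iff_maximalIdeal_eq.2 h0
      have := ringKrullDim_eq_zero_of_isField h2
      rw [h] at this
      have h3 : d + 1 = 0 := by exact_mod_cast this
      omega
    have hsq : ¬ (maximalIdeal B ≤ maximalIdeal B ^ 2) := by
      intro hle
      apply hmb
      apply Submodule.eq_bot_of_le_smul_of_le_jacobson_bot (maximalIdeal B) (maximalIdeal B)
        (maximalIdeal B).fg_of_isNoetherianRing
      · rw [smul_eq_mul, ← pow_two]; exact hle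
      · exact IsLocalRing.maximalIdeal_le_jacobson _
    obtain ⟨t, htm, ht2⟩ := Set.not_subset.1 hsq
    have ht0 : t ≠ 0 := by
      rintro rfl
      exact ht2 (zero_mem _)
    obtain ⟨hreg, hdim⟩ := H379R3.regular_quotient t htm ht2 d h
    exact eqFlat_of_quotient hF ht0 htm
      (ih (B ⧸ Ideal.span {t}) (hF.of_surjective _ Ideal.Quotient.mk_surjective) hdim)

theorem eqFlat_of_regular (B : Type u) [CommRing B] [IsRegularLocalRing B] {q : ℕ}
    (hF : IsFrob B q) : EqFlat B q := by
  obtain ⟨d, hd⟩ := H379R3.exists_dim_eq (B := B)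
  exact eqFlat_of_regular_aux d B hF hd

end Pool.Agent.Q122.FPR
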