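import Mathlib
import Pool.Agent.Q122.FPR.Kunz

/-! # Frobenius powers and localisations of quotients -/

set_option autoImplicit false

namespace Pool.Agent.Q122.FPR

open IsLocalRing

universe u

/-- Frobenius power of an ideal. -/
def fpow {R : Type u} [CommRing R] (q : ℕ) (I : Ideal R) : Ideal R :=
  Ideal.span {y | ∃ x ∈ I, y = x ^ q}

section

variable {B : Type u} [CommRing B]

lemma pow_mem_fpow {q : ℕ} {I : Ideal B} {x : B} (hx : x ∈ I) : x ^ q ∈ fpow q I :=
  Ideal.subset_span ⟨x, hx, rfl⟩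

lemma fpow_le {q : ℕ} (hq : 0 < q) (I : Ideal B) : fpow q I ≤ I := by
  apply Ideal.span_le.2
  rintro _ ⟨x, hx, rfl⟩
  exact Ideal.pow_mem_of_mem _ hx _ hq

lemma fpow_mono {q : ℕ} {I J : Ideal B} (h : I ≤ J) : fpow q I ≤ fpow q J := by
  apply Ideal.span_mono
  rintro _ ⟨x, hx, rfl⟩
  exact ⟨x, h hx, rfl⟩

lemma fpow_sup_le {q : ℕ} (hF : IsFrob B q) (x : B) (J : Ideal B) :
    fpow q (Ideal.span {x} ⊔ J) ≤ Ideal.span {x ^ q} ⊔ fpow q J := by
  apply Ideal.span_le.2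
  rintro _ ⟨y, hy, rfl⟩
  obtain ⟨a, ha, j, hj, rfl⟩ := Submodule.mem_sup.1 hy
  obtain ⟨b, rfl⟩ := Ideal.mem_span_singleton'.1 ha
  rw [hF.2, mul_pow]
  exact add_mem (Ideal.mem_sup_left (Ideal.mul_mem_left _ _ (Ideal.mem_span_singleton_self _)))
    (Ideal.mem_sup_right (pow_mem_fpow hj))

lemma mem_fpow_of_mul_mem {q : ℕ} (hflat : EqFlat B q) {J : Ideal B} {x h : B}
    (hx : ∀ g, x * g ∈ J → g ∈ J) (hh : x ^ q * h ∈ fpow q J) : h ∈ fpow q J := by
  obtain ⟨n, y, g, hg⟩ := Submodule.mem_span_set'.1 hh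
  choose z hz1 hz2 using fun j => (g j).2
  let f : Unit ⊕ Fin n → B := Sum.elim (fun _ => x) z
  have hmem : (Sum.elim (fun _ => h) (fun j => - y j) : Unit ⊕ Fin n → B) ∈ Rel q f := by
    rw [mem_Rel, Fintype.sum_sum_type]
    simp only [f, Sum.elim_inl, Sum.elim_inr, Finset.univ_unique, Finset.sum_singleton]
    rw [← hg, ← Finset.sum_add_distrib]
    apply Finset.sum_eq_zero
    intro j _
    rw [hz2, smul_eq_mul]
    ring
  have h1 := hflat _ f hmem
  have h2 : Triv q ⊥ f ≤ Submodule.comap (LinearMap.proj (R := B) (φ := fun _ : Unit ⊕ Fin n => B)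
      (Sum.inl ()) : (Unit ⊕ Fin n → B) →ₗ[B] B) (fpow q J) := by
    apply Submodule.span_le.2
    rintro _ ⟨a, ha, rfl⟩
    show a (Sum.inl ()) ^ q ∈ fpow q J
    apply pow_mem_fpow
    apply hx
    have h3 : ∑ i, f i * a i = 0 := ha
    rw [Fintype.sum_sum_type] at h3
    simp only [f, Sum.elim_inl, Sum.elim_inr, Finset.univ_unique, Finset.sum_singleton] at h3
    have h4 : x * a (Sum.inl ()) = - ∑ j, z j * a (Sum.inr j) := by
      linear_combination h3
    rw [h4]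
    exact neg_mem (Ideal.sum_mem _ fun j _ => Ideal.mul_mem_right _ _ (hz1 j))
  exact h2 h1

end

section regular

variable {B : Type u} [CommRing B] [IsRegularLocalRing B]

/-- An element of order one is a nonzerodivisor modulo a complementary ideal. -/
lemma exists_compl {x : B} (hx : x ∈ maximalIdeal B) (hx2 : x ∉ maximalIdeal B ^ 2) :
    ∃ J : Ideal B, maximalIdeal B = Ideal.span {x} ⊔ J ∧ ∀ g, x * g ∈ J → g ∈ J := by
  classical
  obtain ⟨d, z, i₀, hd, hz, hi⟩ := H379R3.exists_param_of_mem x hx hx2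
  have hd0 : 0 < d := Fin.pos i₀
  obtain ⟨d, rfl⟩ : ∃ d', d = d' + 1 := ⟨d - 1, by omega⟩
  let s : Finset B := (Finset.univ.erase i₀).image z
  let J : Ideal B := Ideal.span (s : Set B)
  have hJm : J ≤ maximalIdeal B := by
    rw [← hz]
    apply Ideal.span_mono
    intro y hy
    obtain ⟨i, _, rfl⟩ := Finset.mem_image.1 (Finset.mem_coe.1 hy)
    exact ⟨i, rfl⟩
  have hsup : maximalIdeal B = Ideal.span {x} ⊔ J := by
    apply le_antisymm
    · rw [← hz, Ideal.span_le]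
      rintro _ ⟨i, rfl⟩
      by_cases h : i = i₀
      · subst h
        rw [hi]
        exact Ideal.mem_sup_left (Ideal.mem_span_singleton_self x)
      · apply Ideal.mem_sup_right
        apply Ideal.subset_span
        exact Finset.mem_coe.2 (Finset.mem_image.2 ⟨i, Finset.mem_erase.2 ⟨h, Finset.mem_univ _⟩, rfl⟩)
    · apply sup_le _ hJm
      rw [Ideal.span_singleton_le_iff_mem]
      exact hx
  have hscard : s.card ≤ d := by
    refine Finset.card_image_le.trans ?_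
    rw [Finset.card_erase_of_mem (Finset.mem_univ _)]
    simp
  have hne : J ≠ ⊤ := by
    intro h
    rw [h] at hJm
    exact (maximalIdeal.isMaximal B).ne_top (top_le_iff.1 hJm)
  have : Nontrivial (B ⧸ J) := Ideal.Quotient.nontrivial_iff.2 hne
  have hloc : IsLocalRing (B ⧸ J) :=
    IsLocalRing.of_surjective' (Ideal.Quotient.mk _) Ideal.Quotient.mk_surjective
  have hmax : maximalIdeal (B ⧸ J) = Ideal.span {Ideal.Quotient.mk J x} := by
    rw [← H379R3.map_mk_maximalIdeal, hsup, Ideal.map_sup, Ideal.map_quotient_self, sup_bot_eq,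
      Ideal.map_span, Set.image_singleton]
  have hdim : ((1 : ℕ) : WithBot ℕ∞) ≤ ringKrullDim (B ⧸ J) := by
    have h1 := ringKrullDim_le_ringKrullDim_quotient_add_card (R := B) s (by
      intro y hy
      rw [SetLike.mem_coe, IsLocalRing.ringJacobson_eq_maximalIdeal]
      exact hJm (Ideal.subset_span hy))
    rw [hd] at h1
    have h2 : ((d + 1 : ℕ) : WithBot ℕ∞) ≤ ringKrullDim (B ⧸ J) + (d : ℕ) := by
      refine h1.trans ?_
      gcongr
    have h3 : ((1 : ℕ) : WithBot ℕ∞) + (d : ℕ) ≤ ringKrullDim (B ⧸ J) + (d : ℕ) := by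
      refine le_trans (le_of_eq ?_) h2
      push_cast
      rw [add_comm]
    exact ENat.WithBot.add_le_add_natCast_right_iff.1 h3
  have hrank : (maximalIdeal (B ⧸ J)).spanFinrank ≤ 1 := by
    rw [hmax]
    refine (Submodule.spanFinrank_span_le_ncard_of_finite (Set.toFinite _)).trans ?_
    simp
  have hreg : IsRegularLocalRing (B ⧸ J) := by
    apply IsRegularLocalRing.of_spanFinrank_maximalIdeal_le
    exact le_trans (by exact_mod_cast hrank) hdim
  have hdom := H379R3.isDomain (B ⧸ J)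
  refine ⟨J, hsup, fun g hg => ?_⟩
  have hx0 : Ideal.Quotient.mk J x ≠ 0 := by
    intro h0
    rw [h0, Ideal.span_singleton_eq_bot.2 rfl] at hmax
    have h2 : IsField (B ⧸ J) := isField_iff_maximalIdeal_eq.2 hmax
    have h3 := ringKrullDim_eq_zero_of_isField h2
    rw [h3] at hdim
    have h4 : (1 : ℕ) ≤ 0 := by exact_mod_cast hdim
    omega
  have h1 : Ideal.Quotient.mk J x * Ideal.Quotient.mk J g = 0 := by
    rw [← map_mul]
    exact Ideal.Quotient.eq_zero_iff_mem.2 hg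
  exact Ideal.Quotient.eq_zero_iff_mem.1 ((mul_eq_zero.1 h1).resolve_left hx0)

/-- Lemma C. -/
lemma mem_of_pow_mul_mem {q : ℕ} (hF : IsFrob B q) {x : B} (hx : x ∈ maximalIdeal B)
    (hx2 : x ∉ maximalIdeal B ^ 2) {k : ℕ} (hk : k < q) {g : B}
    (hg : x ^ k * g ∈ fpow q (maximalIdeal B)) :
    g ∈ Ideal.span {x} ⊔ fpow q (maximalIdeal B) := by
  obtain ⟨J, hJ, hxJ⟩ := exists_compl hx hx2
  have h1 : x ^ k * g ∈ Ideal.span {x ^ q} ⊔ fpow q J := by
    rw [hJ] at hg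
    exact fpow_sup_le hF x J hg
  obtain ⟨a, ha, j, hj, haj⟩ := Submodule.mem_sup.1 h1
  obtain ⟨b, rfl⟩ := Ideal.mem_span_singleton'.1 ha
  have hxq : x ^ q = x ^ k * x ^ (q - k) := by rw [← pow_add]; congr 1; omega
  have h2 : x ^ q * (g - b * x ^ (q - k)) ∈ fpow q J := by
    have : x ^ q * (g - b * x ^ (q - k)) = x ^ (q - k) * j := by
      have h3 : j = x ^ k * g - b * x ^ q := by linear_combination haj
      rw [h3, hxq]
      ring
    rw [this]
    exact Ideal.mul_mem_left _ _ hj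
  have h3 := mem_fpow_of_mul_mem (eqFlat_of_regular B hF) hxJ h2
  have h4 : g = b * x ^ (q - k) + (g - b * x ^ (q - k)) := by ring
  rw [h4]
  refine add_mem (Ideal.mem_sup_left ?_) (Ideal.mem_sup_right ?_)
  · apply Ideal.mul_mem_left
    obtain ⟨r, hr⟩ : ∃ r, q - k = r + 1 := ⟨q - k - 1, by omega⟩
    rw [hr, pow_succ]
    exact Ideal.mul_mem_left _ _ (Ideal.mem_span_singleton_self x)
  · refine fpow_mono ?_ h3
    rw [hJ]
    exact le_sup_right

end regular

/-- `B`, with `φ : R → B`, is the localisation of `R / I` at `Q`. -/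
structure LocAt {R B : Type u} [CommRing R] [CommRing B] (Q I : Ideal R) (φ : R →+* B) :
    Prop where
  unit : ∀ s ∉ Q, IsUnit (φ s)
  surj : ∀ b : B, ∃ r : R, ∃ s ∉ Q, φ s * b = φ r
  ker : ∀ r : R, φ r = 0 ↔ ∃ s ∉ Q, s * r ∈ I

section LocAt

variable {R B : Type u} [CommRing R] [CommRing B] {Q I : Ideal R} {φ : R →+* B}

lemma LocAt.mem_map_iff (h : LocAt Q I φ) [hQ : Q.IsPrime] (K : Ideal R) (r : R) :
    φ r ∈ K.map φ ↔ ∃ s ∉ Q, s * r ∈ K ⊔ I := by
  have hQm : ∀ {a b : R}, a ∉ Q → b ∉ Q → a * b ∉ Q := fun ha hb hab =>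
    (hQ.mem_or_mem hab).elim ha hb
  constructor
  · intro hr
    have key : ∀ b ∈ K.map φ, ∃ s ∉ Q, ∃ k ∈ K, φ s * b = φ k := by
      intro b hb
      refine Submodule.span_induction ?_ ?_ ?_ ?_ hb
      · rintro _ ⟨k, hk, rfl⟩
        exact ⟨1, fun h1 => hQ.ne_top ((Ideal.eq_top_iff_one _).2 h1), k, hk, by simp⟩
      · exact ⟨1, fun h1 => hQ.ne_top ((Ideal.eq_top_iff_one _).2 h1), 0, zero_mem _, by simp⟩
      · rintro x y _ _ ⟨s, hs, k, hk, hx⟩ ⟨t, ht, l, hl, hy⟩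
        refine ⟨s * t, hQm hs ht, t * k + s * l, add_mem (K.mul_mem_left _ hk)
          (K.mul_mem_left _ hl), ?_⟩
        rw [map_add, map_mul, map_mul, map_mul, ← hx, ← hy]
        ring
      · rintro a x _ ⟨s, hs, k, hk, hx⟩
        obtain ⟨r, t, ht, hrt⟩ := h.surj a
        refine ⟨s * t, hQm hs ht, r * k, K.mul_mem_left _ hk, ?_⟩
        rw [map_mul, map_mul, ← hx, ← hrt, smul_eq_mul]
        ring
    obtain ⟨s, hs, k, hk, hsk⟩ := key _ hr
    have h0 : φ (s * r - k) = 0 := by rw [map_sub, map_mul, hsk, sub_self]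
    obtain ⟨t, ht, hmem⟩ := (h.ker _).1 h0
    refine ⟨t * s, hQm ht hs, ?_⟩
    have : t * s * r = t * k + t * (s * r - k) := by ring
    rw [this]
    exact add_mem (Ideal.mem_sup_left (K.mul_mem_left _ hk)) (Ideal.mem_sup_right hmem)
  · rintro ⟨s, hs, hsr⟩
    obtain ⟨k, hk, i, hi, hki⟩ := Submodule.mem_sup.1 hsr
    have hi0 : φ i = 0 := (h.ker i).2 ⟨1, fun h1 => hQ.ne_top ((Ideal.eq_top_iff_one _).2 h1),
      by simpa using hi⟩
    have h1 : φ s * φ r ∈ K.map φ := by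
      rw [← map_mul, ← hki, map_add, hi0, add_zero]
      exact Ideal.mem_map_of_mem _ hk
    exact (Ideal.unit_mul_mem_iff_mem _ (h.unit s hs)).1 h1

lemma LocAt.isLocalRing (h : LocAt Q I φ) [hQ : Q.IsPrime] (hI : I ≤ Q) : IsLocalRing B := by
  have hnt : Nontrivial B := by
    refine ⟨1, 0, fun h10 => ?_⟩
    have : φ 1 = 0 := by rw [map_one]; exact h10
    obtain ⟨s, hs, hmem⟩ := (h.ker 1).1 this
    exact hs (hI (by simpa using hmem))
  refine IsLocalRing.of_nonunits_add fun a b ha hb => ?_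
  have key : ∀ a ∈ nonunits B, a ∈ Q.map φ := by
    intro a ha
    obtain ⟨r, s, hs, hrs⟩ := h.surj a
    have hr : r ∈ Q := by
      by_contra hr
      apply ha
      have := h.unit r hr
      rw [← hrs] at this
      exact isUnit_of_mul_isUnit_right this
    have : φ s * a ∈ Q.map φ := by rw [hrs]; exact Ideal.mem_map_of_mem _ hr
    exact (Ideal.unit_mul_mem_iff_mem _ (h.unit s hs)).1 this
  intro hu
  have h1 : a + b ∈ Q.map φ := add_mem (key a ha) (key b hb)
  have h2 : Q.map φ = ⊤ := Ideal.eq_top_of_isUnit_mem _ h1 hu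
  have h3 : φ 1 ∈ Q.map φ := by rw [h2]; trivial
  obtain ⟨s, hs, hmem⟩ := (h.mem_map_iff Q 1).1 h3
  rw [sup_eq_left.2 hI] at hmem
  exact hs (by simpa using hmem)

lemma LocAt.maximalIdeal (h : LocAt Q I φ) [hQ : Q.IsPrime] (hI : I ≤ Q) [IsLocalRing B] :
    maximalIdeal B = Q.map φ := by
  apply le_antisymm
  · intro a ha
    obtain ⟨r, s, hs, hrs⟩ := h.surj a
    have hr : r ∈ Q := by
      by_contra hr
      apply (IsLocalRing.mem_maximalIdeal _).1 ha
      have := h.unit r hr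
      rw [← hrs] at this
      exact isUnit_of_mul_isUnit_right this
    have : φ s * a ∈ Q.map φ := by rw [hrs]; exact Ideal.mem_map_of_mem _ hr
    exact (Ideal.unit_mul_mem_iff_mem _ (h.unit s hs)).1 this
  · rw [Ideal.map_le_iff_le_comap]
    intro r hr
    rw [Ideal.mem_comap, IsLocalRing.mem_maximalIdeal]
    intro hu
    have h2 : Q.map φ = ⊤ := Ideal.eq_top_of_isUnit_mem _ (Ideal.mem_map_of_mem _ hr) hu
    have h3 : φ 1 ∈ Q.map φ := by rw [h2]; trivial
    obtain ⟨s, hs, hmem⟩ := (h.mem_map_iff Q 1).1 h3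
    rw [sup_eq_left.2 hI] at hmem
    exact hs (by simpa using hmem)

/-- Frobenius powers commute with localisation. -/
lemma LocAt.fpow_map (h : LocAt Q I φ) (K : Ideal R) (q : ℕ) [hQ : Q.IsPrime] :
    fpow q (K.map φ) ≤ (fpow q K).map φ := by
  apply Ideal.span_le.2
  rintro _ ⟨b, hb, rfl⟩
  obtain ⟨r, s, hs, hrs⟩ := h.surj b
  have h1 : φ r ∈ K.map φ := by rw [← hrs]; exact Ideal.mul_mem_left _ _ hb
  -- choose a better numerator
  have key : ∀ b ∈ K.map φ, ∃ s ∉ Q, ∃ k ∈ K, φ s * b = φ k := by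
    have hQm : ∀ {a b : R}, a ∉ Q → b ∉ Q → a * b ∉ Q := fun ha hb hab =>
      (hQ.mem_or_mem hab).elim ha hb
    intro b hb
    refine Submodule.span_induction ?_ ?_ ?_ ?_ hb
    · rintro _ ⟨k, hk, rfl⟩
      exact ⟨1, fun h1 => hQ.ne_top ((Ideal.eq_top_iff_one _).2 h1), k, hk, by simp⟩
    · exact ⟨1, fun h1 => hQ.ne_top ((Ideal.eq_top_iff_one _).2 h1), 0, zero_mem _, by simp⟩
    · rintro x y _ _ ⟨s, hs, k, hk, hx⟩ ⟨t, ht, l, hl, hy⟩
      refine ⟨s * t, hQm hs ht, t * k + s * l, add_mem (K.mul_mem_left _ hk)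
        (K.mul_mem_left _ hl), ?_⟩
      rw [map_add, map_mul, map_mul, map_mul, ← hx, ← hy]
      ring
    · rintro a x _ ⟨s, hs, k, hk, hx⟩
      obtain ⟨r, t, ht, hrt⟩ := h.surj a
      refine ⟨s * t, hQm hs ht, r * k, K.mul_mem_left _ hk, ?_⟩
      rw [map_mul, map_mul, ← hx, ← hrt, smul_eq_mul]
      ring
  obtain ⟨t, ht, k, hk, htk⟩ := key b hb
  have h2 : (φ t) ^ q * b ^ q ∈ (fpow q K).map φ := by
    rw [← mul_pow, htk, ← map_pow]
    exact Ideal.mem_map_of_mem _ (pow_mem_fpow hk)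
  exact (Ideal.unit_mul_mem_iff_mem _ ((h.unit t ht).pow q)).1 h2

lemma map_fpow (K : Ideal R) (q : ℕ) (φ : R →+* B) :
    (fpow q K).map φ ≤ fpow q (K.map φ) := by
  rw [Ideal.map_le_iff_le_comap]
  apply Ideal.span_le.2
  rintro _ ⟨x, hx, rfl⟩
  show φ (x ^ q) ∈ fpow q (K.map φ)
  rw [map_pow]
  exact pow_mem_fpow (Ideal.mem_map_of_mem _ hx)

end LocAt

end Pool.Agent.Q122.FPR
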