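import Mathlib
import Pool.Agent.Q122.FPR.LocQ

/-! # The induction -/

set_option autoImplicit false

namespace Pool.Agent.Q122.FPR

open IsLocalRing

universe u

section LQ

variable {R : Type u} [CommRing R]

/-- The local ring of `R / I` at `Q`. -/
abbrev LQ (I Q : Ideal R) [Q.IsPrime] : Type u :=
  Localization.AtPrime Q ⧸ I.map (algebraMap R (Localization.AtPrime Q))

/-- The map from `R`. -/
noncomputable def toLQ (I Q : Ideal R) [Q.IsPrime] : R →+* LQ I Q :=
  (Ideal.Quotient.mk _).comp (algebraMap R (Localization.AtPrime Q))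

lemma locAt_toLQ (I Q : Ideal R) [Q.IsPrime] : LocAt Q I (toLQ I Q) where
  unit s hs := (IsLocalization.map_units (Localization.AtPrime Q)
    (⟨s, hs⟩ : Q.primeCompl)).map (Ideal.Quotient.mk _)
  surj b := by
    obtain ⟨b, rfl⟩ := Ideal.Quotient.mk_surjective b
    obtain ⟨⟨r, s⟩, hrs⟩ := IsLocalization.surj Q.primeCompl b
    refine ⟨r, s, s.2, ?_⟩
    simp only [toLQ, RingHom.comp_apply]
    rw [← hrs, map_mul, mul_comm]
  ker r := by
    simp only [toLQ, RingHom.comp_apply]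
    rw [Ideal.Quotient.eq_zero_iff_mem,
      IsLocalization.algebraMap_mem_map_algebraMap_iff Q.primeCompl]
    rfl

/-- uniqueness -/
lemma LocAt.exists_equiv {B : Type u} [CommRing B] {Q I : Ideal R} [Q.IsPrime] {φ : R →+* B}
    (h : LocAt Q I φ) : Nonempty (LQ I Q ≃+* B) := by
  let ψ : Localization.AtPrime Q →+* B :=
    IsLocalization.lift (M := Q.primeCompl) (g := φ) (fun s => h.unit s s.2)
  have hψ : ∀ r, ψ (algebraMap R _ r) = φ r := fun r => IsLocalization.lift_eq _ r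
  have hsurj : Function.Surjective ψ := by
    intro b
    obtain ⟨r, s, hs, hrs⟩ := h.surj b
    refine ⟨IsLocalization.mk' _ r (⟨s, hs⟩ : Q.primeCompl), ?_⟩
    rw [IsLocalization.lift_mk'_spec]
    exact hrs.symm
  have hker : I.map (algebraMap R (Localization.AtPrime Q)) = RingHom.ker ψ := by
    ext x
    obtain ⟨⟨r, s⟩, hrs⟩ := IsLocalization.surj Q.primeCompl x
    have hu := IsLocalization.map_units (Localization.AtPrime Q) s
    rw [RingHom.mem_ker, ← Ideal.unit_mul_mem_iff_mem _ hu, mul_comm, hrs,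
      IsLocalization.algebraMap_mem_map_algebraMap_iff Q.primeCompl]
    have h1 : ψ x = 0 ↔ φ r = 0 := by
      rw [← hψ r, ← hrs, map_mul, hψ]
      constructor
      · intro h0
        rw [h0, zero_mul]
      · intro h0
        exact (h.unit s s.2).mul_left_eq_zero.1 h0
    rw [h1, h.ker]
    rfl
  exact ⟨(Ideal.quotEquivOfEq hker).trans (RingHom.quotientKerEquivOfSurjective hsurj)⟩

lemma LocAt.regular_iff {B : Type u} [CommRing B] {Q I : Ideal R} [Q.IsPrime] {φ : R →+* B}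
    (h : LocAt Q I φ) : IsRegularLocalRing B ↔ IsRegularLocalRing (LQ I Q) := by
  obtain ⟨e⟩ := h.exists_equiv
  constructor
  · intro hB
    exact IsRegularLocalRing.of_ringEquiv e.symm
  · intro hB
    exact IsRegularLocalRing.of_ringEquiv e

lemma LocAt.quot {B : Type u} [CommRing B] {Q I : Ideal R} [Q.IsPrime] {φ : R →+* B}
    (h : LocAt Q I φ) (K : Ideal R) :
    LocAt Q (K ⊔ I) ((Ideal.Quotient.mk (K.map φ)).comp φ) where
  unit s hs := (h.unit s hs).map (Ideal.Quotient.mk (K.map φ))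
  surj b := by
    obtain ⟨b, rfl⟩ := Ideal.Quotient.mk_surjective b
    obtain ⟨r, s, hs, hrs⟩ := h.surj b
    refine ⟨r, s, hs, ?_⟩
    simp only [RingHom.comp_apply]
    rw [← map_mul, hrs]
  ker r := by
    simp only [RingHom.comp_apply]
    rw [Ideal.Quotient.eq_zero_iff_mem, h.mem_map_iff]

lemma LocAt.isFrob {B : Type u} [CommRing B] {Q I : Ideal R} [Q.IsPrime] {φ : R →+* B}
    (h : LocAt Q I φ) {q : ℕ} (hF : IsFrob R q) : IsFrob B q := by
  refine ⟨hF.1, fun b1 b2 => ?_⟩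
  obtain ⟨r1, s1, hs1, h1⟩ := h.surj b1
  obtain ⟨r2, s2, hs2, h2⟩ := h.surj b2
  have hu : IsUnit ((φ s1 * φ s2) ^ q) := ((h.unit s1 hs1).mul (h.unit s2 hs2)).pow q
  apply hu.mul_left_cancel
  have e1 : (φ s1 * φ s2) ^ q * (b1 + b2) ^ q = (φ (s2 * r1 + s1 * r2)) ^ q := by
    rw [← mul_pow, map_add, map_mul, map_mul, ← h1, ← h2]
    congr 1
    ring
  rw [e1, ← map_pow, hF.2, map_add, map_pow, map_pow, map_mul, map_mul, ← h1, ← h2]
  ring

end LQ

section Ind

variable {R : Type u} [CommRing R]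

/-- Uniformly in `Q ∈ V(P) ∩ D(f')`, `c` avoids `I + Q^{[q]}` locally at `Q`, for large `q`. -/
def Good (p : ℕ) (P I : Ideal R) (c : R) : Prop :=
  ∃ f' ∉ P, ∃ e0 : ℕ, ∀ e ≥ e0, ∀ (Q : Ideal R) [Q.IsPrime], P ≤ Q → f' ∉ Q →
    ∀ s ∉ Q, s * c ∉ I ⊔ fpow (p ^ e) Q

lemma exists_uniform {P K Q : Ideal R} [hQ : Q.IsPrime] (hP : P.FG)
    (h : ∀ y ∈ P, ∃ s ∉ Q, s * y ∈ K) : ∃ s ∉ Q, ∀ y ∈ P, s * y ∈ K := by
  classical
  obtain ⟨T, hT⟩ := hP
  have hmem : ∀ y ∈ T, y ∈ P := fun y hy => by rw [← hT]; exact Ideal.subset_span hy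
  choose! s hs1 hs2 using h
  refine ⟨∏ y ∈ T, s y, ?_, ?_⟩
  · intro hmem'
    obtain ⟨y, hy, hsy⟩ := (hQ.prod_mem_iff).1 hmem'
    exact hs1 y (hmem y hy) hsy
  · intro y hy
    have h1 : P ≤ Submodule.comap (LinearMap.mulLeft R (∏ y ∈ T, s y)) K := by
      rw [← hT]
      apply Submodule.span_le.2
      intro z hz
      show (∏ y ∈ T, s y) * z ∈ K
      rw [← Finset.prod_erase_mul _ _ hz, mul_assoc]
      exact K.mul_mem_left _ (hs2 z (hmem z hz))
    exact h1 hy

theorem good_of_gen [IsNoetherianRing R] {p : ℕ} (hp : 2 ≤ p) (hF : ∀ e, IsFrob R (p ^ e))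
    (P : Ideal R) [hPp : P.IsPrime] (f : R) (hf : f ∉ P)
    (hP : ∀ (Q : Ideal R) [Q.IsPrime], P ≤ Q → f ∉ Q → IsRegularLocalRing (LQ P Q)) (n : ℕ) :
    ∀ (I : Ideal R), I ≤ P →
      (∃ g ∉ P, ∀ (Q : Ideal R) [Q.IsPrime], P ≤ Q → g ∉ Q → IsRegularLocalRing (LQ I Q)) →
      ∀ (S : Finset R), S.card ≤ n → (S : Set R) ⊆ P →
        (∃ s ∉ P, ∀ y ∈ P, s * y ∈ Ideal.span (S : Set R) ⊔ I) →
        ∀ c, (∀ s ∉ P, s * c ∉ I) → Good p P I c := by
  classical
  have hPm : ∀ {a b : R}, a ∉ P → b ∉ P → a * b ∉ P := fun ha hb hab =>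
    (hPp.mem_or_mem hab).elim ha hb
  have base : ∀ (I : Ideal R), I ≤ P → (∃ s ∉ P, ∀ y ∈ P, s * y ∈ I) →
      ∀ c, (∀ s ∉ P, s * c ∉ I) → Good p P I c := by
    rintro I hI ⟨s, hs, hsI⟩ c hc
    have hcP : c ∉ P := fun h => hc s hs (hsI c h)
    refine ⟨c, hcP, 0, fun e _ Q hQ hPQ hcQ s' hs' hmem => ?_⟩
    have h1 : I ⊔ fpow (p ^ e) Q ≤ Q :=
      sup_le (hI.trans hPQ) (fpow_le (by positivity) Q)
    exact (hQ.mem_or_mem (h1 hmem)).elim hs' hcQ
  induction n with
  | zero =>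
    intro I hI _ S hS _ hgen c hc
    have hS0 : S = ∅ := Finset.card_eq_zero.1 (by omega)
    subst hS0
    simp only [Finset.coe_empty, Ideal.span_empty, bot_sup_eq] at hgen
    exact base I hI hgen c hc
  | succ n ih =>
    intro I hI hreg S hS hSP hgen c hc
    rcases S.eq_empty_or_nonempty with rfl | ⟨x, hxS⟩
    · simp only [Finset.coe_empty, Ideal.span_empty, bot_sup_eq] at hgen
      exact base I hI hgen c hc
    set S' := S.erase x with hS'
    have hS'c : S'.card ≤ n := by rw [Finset.card_erase_of_mem hxS]; omega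
    have hS'P : (S' : Set R) ⊆ P := fun y hy => hSP (Finset.mem_of_mem_erase hy)
    by_cases hred : ∃ s ∉ P, ∀ y ∈ P, s * y ∈ Ideal.span (S' : Set R) ⊔ I
    · exact ih I hI hreg S' hS'c hS'P hred c hc
    obtain ⟨g, hg, hregI⟩ := hreg
    obtain ⟨s, hs, hsgen⟩ := hgen
    have hxP : x ∈ P := hSP hxS
    have hspan : Ideal.span (S : Set R) = Ideal.span {x} ⊔ Ideal.span (S' : Set R) := by
      rw [← Ideal.span_union, hS', Finset.coe_erase, Set.singleton_union, Set.insert_sdiff_singleton,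
        Set.insert_eq_of_mem hxS]
    -- the element `x` has order one
    have hord : ∀ (Q : Ideal R) [Q.IsPrime], P ≤ Q → f ∉ Q → g ∉ Q → s ∉ Q →
        ∀ [IsRegularLocalRing (LQ I Q)], toLQ I Q x ∈ maximalIdeal (LQ I Q) ∧
          toLQ I Q x ∉ maximalIdeal (LQ I Q) ^ 2 := by
      intro Q hQ hPQ hfQ hgQ hsQ hregQ
      have hL := locAt_toLQ I Q
      set φ := toLQ I Q with hφ
      have hIQ : I ≤ Q := hI.trans hPQ
      have hm := hL.maximalIdeal hIQ
      refine ⟨by rw [hm]; exact Ideal.mem_map_of_mem _ (hPQ hxP), fun hx2 => ?_⟩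
      have hLq : LocAt (B := LQ I Q ⧸ P.map φ) Q P ((Ideal.Quotient.mk (P.map φ)).comp φ) := by
        have := hL.quot P
        rwa [sup_eq_left.2 hI] at this
      have hregK : IsRegularLocalRing (LQ I Q ⧸ P.map φ) := hLq.regular_iff.2 (hP Q hPQ hfQ)
      have hxK : φ x ∈ maximalIdeal (LQ I Q) * P.map φ :=
        H379R3.inf_sq_le (P.map φ) ⟨Ideal.mem_map_of_mem _ hxP, hx2⟩
      have hK1 : P.map φ ≤ (Ideal.span (S' : Set R)).map φ ⊔
          maximalIdeal (LQ I Q) • P.map φ := by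
        rw [Ideal.map_le_iff_le_comap]
        intro y hy
        rw [Ideal.mem_comap]
        have h1 := hsgen y hy
        have h2 : φ s * φ y ∈ (Ideal.span (S' : Set R)).map φ ⊔
            maximalIdeal (LQ I Q) • P.map φ := by
          rw [← map_mul]
          obtain ⟨a, ha, i, hi, hai⟩ := Submodule.mem_sup.1 h1
          have hi0 : φ i = 0 := (hL.ker i).2 ⟨1, fun h1 => hQ.ne_top
            ((Ideal.eq_top_iff_one _).2 h1), by simpa using hi⟩
          rw [← hai, map_add, hi0, add_zero]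
          rw [hspan] at ha
          obtain ⟨b, hb, d, hd, rfl⟩ := Submodule.mem_sup.1 ha
          obtain ⟨b, rfl⟩ := Ideal.mem_span_singleton'.1 hb
          rw [map_add, map_mul]
          exact add_mem (Ideal.mem_sup_right (Ideal.mul_mem_left _ _ hxK))
            (Ideal.mem_sup_left (Ideal.mem_map_of_mem _ hd))
        exact (Ideal.unit_mul_mem_iff_mem _ (hL.unit s hsQ)).1 h2
      have hK2 : P.map φ ≤ (Ideal.span (S' : Set R)).map φ :=
        Submodule.le_of_le_smul_of_le_jacobson_bot (Ideal.fg_of_isNoetherianRing _)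
          (IsLocalRing.maximalIdeal_le_jacobson _) hK1
      obtain ⟨s', hs', hs'gen⟩ := exists_uniform (Q := Q) (K := Ideal.span (S' : Set R) ⊔ I)
        (Ideal.fg_of_isNoetherianRing P)
        (fun y hy => (hL.mem_map_iff _ y).1 (hK2 (Ideal.mem_map_of_mem _ hy)))
      exact hred ⟨s', fun h => hs' (hPQ h), hs'gen⟩
    -- the new ideal
    set I' := Ideal.span {x} ⊔ I with hI'
    have hI'P : I' ≤ P := sup_le (by rw [Ideal.span_singleton_le_iff_mem]; exact hxP) hI
    have hreg' : ∃ g ∉ P, ∀ (Q : Ideal R) [Q.IsPrime], P ≤ Q → g ∉ Q →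
        IsRegularLocalRing (LQ I' Q) := by
      refine ⟨f * g * s, hPm (hPm hf hg) hs, fun Q hQ hPQ hfgs => ?_⟩
      have hfQ : f ∉ Q := fun h => hfgs (Q.mul_mem_right _ (Q.mul_mem_right _ h))
      have hgQ : g ∉ Q := fun h => hfgs (Q.mul_mem_right _ (Q.mul_mem_left _ h))
      have hsQ : s ∉ Q := fun h => hfgs (Q.mul_mem_left _ h)
      have hregQ := hregI Q hPQ hgQ
      obtain ⟨hx1, hx2⟩ := hord Q hPQ hfQ hgQ hsQ
      have hLq := (locAt_toLQ I Q).quot (Ideal.span {x})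
      refine hLq.regular_iff.1 ?_
      obtain ⟨d, hd⟩ := H379R3.exists_dim_eq (B := LQ I Q)
      have hd0 : d ≠ 0 := by
        rintro rfl
        rw [H379R3.dim_zero_maximalIdeal_eq_bot hd] at hx1 hx2
        have : toLQ I Q x = 0 := hx1
        rw [this] at hx2
        exact hx2 (zero_mem _)
      obtain ⟨d, rfl⟩ := Nat.exists_eq_succ_of_ne_zero hd0
      have := (H379R3.regular_quotient (toLQ I Q x) hx1 hx2 d hd).1
      have hmap : (Ideal.span {x}).map (toLQ I Q) = Ideal.span {toLQ I Q x} := by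
        rw [Ideal.map_span, Set.image_singleton]
      rw [hmap]
      exact this
    -- divide `c` by a power of `x` at `P`
    have hfgs : f * g * s ∉ P := hPm (hPm hf hg) hs
    have hregP := hregI P le_rfl hg
    obtain ⟨hx1, hx2⟩ := hord P le_rfl hf hg hs
    have hLP := locAt_toLQ I P
    obtain ⟨k, c'', s3, hs3, hc3, hc''⟩ : ∃ (k : ℕ) (c'' s3 : R), s3 ∉ P ∧
        s3 * c - x ^ k * c'' ∈ I ∧ ∀ s ∉ P, s * c'' ∉ I' := by
      set φ := toLQ I P with hφ
      have hc0 : φ c ≠ 0 := by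
        intro h0
        obtain ⟨s, hs, hsc⟩ := (hLP.ker c).1 h0
        exact hc s hs hsc
      have hne : Ideal.span {φ x} ≠ ⊤ := by
        intro h
        have h1 : Ideal.span {φ x} ≤ maximalIdeal (LQ I P) := by
          rw [Ideal.span_singleton_le_iff_mem]; exact hx1
        rw [h] at h1
        exact (maximalIdeal.isMaximal _).ne_top (top_le_iff.1 h1)
      have hex : ∃ k, φ c ∉ Ideal.span {φ x} ^ k := by
        by_contra hall
        push Not at hall
        apply hc0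
        have h1 : φ c ∈ ⨅ k : ℕ, Ideal.span {φ x} ^ k := Ideal.mem_iInf.2 hall
        rw [Ideal.iInf_pow_eq_bot_of_isLocalRing _ hne] at h1
        exact h1
      have hk1 := Nat.find_spec hex
      have hk0 : Nat.find hex ≠ 0 := by
        intro h0
        rw [h0, pow_zero, Ideal.one_eq_top] at hk1
        exact hk1 trivial
      obtain ⟨k, hk⟩ := Nat.exists_eq_succ_of_ne_zero hk0
      have hk2 : φ c ∈ Ideal.span {φ x} ^ k := by
        by_contra h
        have := Nat.find_min' hex h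
        omega
      rw [hk] at hk1
      rw [Ideal.span_singleton_pow] at hk1 hk2
      obtain ⟨b, hb⟩ := Ideal.mem_span_singleton'.1 hk2
      obtain ⟨r, s1, hs1, hr⟩ := hLP.surj b
      have hbx : b ∉ Ideal.span {φ x} := by
        intro h
        obtain ⟨a, ha⟩ := Ideal.mem_span_singleton'.1 h
        apply hk1
        rw [← hb, ← ha]
        exact Ideal.mem_span_singleton'.2 ⟨a, by rw [pow_succ]; ring⟩
      have h0 : φ (s1 * c - x ^ k * r) = 0 := by
        rw [map_sub, map_mul, map_mul, map_pow, ← hr, ← hb]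
        ring
      obtain ⟨s2, hs2, hmem⟩ := (hLP.ker _).1 h0
      refine ⟨k, s2 * r, s2 * s1, hPm hs2 hs1, ?_, ?_⟩
      · have : s2 * s1 * c - x ^ k * (s2 * r) = s2 * (s1 * c - x ^ k * r) := by ring
        rw [this]
        exact hmem
      · intro s' hs' hmem'
        apply hbx
        have h1 : φ (s2 * r) ∈ (Ideal.span {x}).map φ :=
          (hLP.mem_map_iff _ _).2 ⟨s', hs', hmem'⟩
        rw [Ideal.map_span, Set.image_singleton, map_mul, ← hr] at h1
        exact (Ideal.unit_mul_mem_iff_mem _ (hLP.unit s1 hs1)).1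
          ((Ideal.unit_mul_mem_iff_mem _ (hLP.unit s2 hs2)).1 h1)
    -- apply the induction hypothesis
    obtain ⟨f', hf', e0, hgood⟩ := ih I' hI'P hreg' S' hS'c hS'P
      ⟨s, hs, fun y hy => by
        have := hsgen y hy
        rw [hspan] at this
        rw [hI', ← sup_assoc, sup_comm (Ideal.span (S' : Set R))]
        exact this⟩ c'' hc''
    refine ⟨f' * (f * g * s) * s3, hPm (hPm hf' hfgs) hs3, max e0 k,
      fun e he Q hQ hPQ hfQ' s0 hs0 hmem => ?_⟩
    have hf'Q : f' ∉ Q := fun h => hfQ' (Q.mul_mem_right _ (Q.mul_mem_right _ h))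
    have hfgsQ : f * g * s ∉ Q := fun h => hfQ' (Q.mul_mem_right _ (Q.mul_mem_left _ h))
    have hs3Q : s3 ∉ Q := fun h => hfQ' (Q.mul_mem_left _ h)
    have hfQ : f ∉ Q := fun h => hfgsQ (Q.mul_mem_right _ (Q.mul_mem_right _ h))
    have hgQ : g ∉ Q := fun h => hfgsQ (Q.mul_mem_right _ (Q.mul_mem_left _ h))
    have hsQ : s ∉ Q := fun h => hfgsQ (Q.mul_mem_left _ h)
    have hregQ := hregI Q hPQ hgQ
    obtain ⟨hy1, hy2⟩ := hord Q hPQ hfQ hgQ hsQ
    have hL := locAt_toLQ I Q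
    have hm := hL.maximalIdeal (hI.trans hPQ)
    set φ := toLQ I Q with hφ
    have h1 : φ c ∈ (fpow (p ^ e) Q).map φ :=
      (hL.mem_map_iff _ _).2 ⟨s0, hs0, by rw [sup_comm]; exact hmem⟩
    have h2 : φ c ∈ fpow (p ^ e) (maximalIdeal (LQ I Q)) := by
      rw [hm]
      exact map_fpow Q (p ^ e) φ h1
    have h3 : φ x ^ k * φ c'' ∈ fpow (p ^ e) (maximalIdeal (LQ I Q)) := by
      have h4 : φ (s3 * c - x ^ k * c'') = 0 := (hL.ker _).2 ⟨1, fun h1 => hQ.ne_top
            ((Ideal.eq_top_iff_one _).2 h1), by simpa using hc3⟩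
      have h5 : φ x ^ k * φ c'' = φ s3 * φ c := by
        rw [map_sub, map_mul, map_mul, map_pow] at h4
        exact (sub_eq_zero.1 h4).symm
      rw [h5]
      exact Ideal.mul_mem_left _ _ h2
    have hkq : k < p ^ e := by
      have h6 : k ≤ e := le_trans (le_max_right _ _) he
      have h7 : e < p ^ e := Nat.lt_pow_self (by omega)
      omega
    have h8 := mem_of_pow_mul_mem (hL.isFrob (hF e)) hy1 hy2 hkq h3
    have h9 : φ c'' ∈ (Ideal.span {x} ⊔ fpow (p ^ e) Q).map φ := by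
      rw [Ideal.map_sup, Ideal.map_span, Set.image_singleton]
      have h10 : Ideal.span {φ x} ⊔ fpow (p ^ e) (maximalIdeal (LQ I Q)) ≤
          Ideal.span {φ x} ⊔ (fpow (p ^ e) Q).map φ :=
        sup_le_sup_left (by rw [hm]; exact hL.fpow_map Q (p ^ e)) _
      exact h10 h8
    obtain ⟨s4, hs4, hmem4⟩ := (hL.mem_map_iff _ _).1 h9
    refine hgood e (le_trans (le_max_left _ _) he) Q hPQ hf'Q s4 hs4 ?_
    rw [hI', sup_assoc, sup_comm I, ← sup_assoc]
    exact hmem4

end Ind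

end Pool.Agent.Q122.FPR
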