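import Mathlib
import Pool.Agent.Q122.FPR.Ind

/-! # Globalisation -/

set_option autoImplicit false

namespace Pool.Agent.Q122.FPR

open IsLocalRing

universe u

section

variable {R : Type u} [CommRing R]

lemma locAt_localization (Q : Ideal R) [Q.IsPrime] :
    LocAt Q ⊥ (algebraMap R (Localization.AtPrime Q)) where
  unit s hs := IsLocalization.map_units (Localization.AtPrime Q) (⟨s, hs⟩ : Q.primeCompl)
  surj b := by
    obtain ⟨⟨r, s⟩, hrs⟩ := IsLocalization.surj Q.primeCompl b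
    exact ⟨r, s, s.2, by rw [← hrs, mul_comm]⟩
  ker r := by
    rw [IsLocalization.map_eq_zero_iff Q.primeCompl]
    constructor
    · rintro ⟨s, hs⟩
      exact ⟨s, s.2, hs⟩
    · rintro ⟨s, hs, h⟩
      exact ⟨⟨s, hs⟩, h⟩

lemma locAt_quotient (P Q : Ideal R) [Q.IsPrime] (hPQ : P ≤ Q) [hq : (Q.map
    (Ideal.Quotient.mk P)).IsPrime] :
    LocAt Q P ((algebraMap (R ⧸ P) (Localization.AtPrime (Q.map (Ideal.Quotient.mk P)))).comp
      (Ideal.Quotient.mk P)) := by
  have hmem : ∀ r : R, Ideal.Quotient.mk P r ∈ Q.map (Ideal.Quotient.mk P) ↔ r ∈ Q := by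
    intro r
    rw [← Ideal.mem_comap, Ideal.comap_map_of_surjective _ Ideal.Quotient.mk_surjective,
      ← RingHom.ker_eq_comap_bot, Ideal.mk_ker, sup_eq_left.2 hPQ]
  constructor
  · intro s hs
    exact IsLocalization.map_units (Localization.AtPrime (Q.map (Ideal.Quotient.mk P)))
      (⟨Ideal.Quotient.mk P s, fun h => hs ((hmem s).1 h)⟩ :
        (Q.map (Ideal.Quotient.mk P)).primeCompl)
  · intro b
    obtain ⟨⟨r, s⟩, hrs⟩ := IsLocalization.surj (Q.map (Ideal.Quotient.mk P)).primeCompl b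
    obtain ⟨r, rfl⟩ := Ideal.Quotient.mk_surjective r
    obtain ⟨s, hs⟩ := s
    obtain ⟨s, rfl⟩ := Ideal.Quotient.mk_surjective s
    refine ⟨r, s, fun h => hs ((hmem s).2 h), ?_⟩
    rw [RingHom.comp_apply, RingHom.comp_apply, ← hrs, mul_comm]
  · intro r
    rw [RingHom.comp_apply, IsLocalization.map_eq_zero_iff (Q.map (Ideal.Quotient.mk P)).primeCompl]
    constructor
    · rintro ⟨⟨s, hs⟩, h⟩
      obtain ⟨s, rfl⟩ := Ideal.Quotient.mk_surjective s
      refine ⟨s, fun h => hs ((hmem s).2 h), ?_⟩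
      have h' : Ideal.Quotient.mk P s * Ideal.Quotient.mk P r = 0 := h
      rw [← map_mul] at h'
      exact Ideal.Quotient.eq_zero_iff_mem.1 h'
    · rintro ⟨s, hs, h⟩
      refine ⟨⟨Ideal.Quotient.mk P s, fun h => hs ((hmem s).1 h)⟩, ?_⟩
      show Ideal.Quotient.mk P s * Ideal.Quotient.mk P r = 0
      rw [← map_mul]
      exact Ideal.Quotient.eq_zero_iff_mem.2 h

/-- equational flatness of the Frobenius is local -/
theorem eqFlat_of_local {q : ℕ}
    (h : ∀ (m : Ideal R) [m.IsMaximal], EqFlat (Localization.AtPrime m) q) : EqFlat R q := by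
  classical
  intro ι _ f x hx
  rw [mem_Rel] at hx
  set T := Triv q ⊥ f with hT
  let A : Ideal R := Submodule.comap (LinearMap.toSpanSingleton R (ι → R) x) T
  have hA : ∀ s, s ∈ A ↔ s • x ∈ T := fun s => Iff.rfl
  suffices hA1 : (1 : R) ∈ A by
    have := (hA 1).1 hA1
    rwa [one_smul] at this
  rw [← Ideal.eq_top_iff_one]
  by_contra hne
  obtain ⟨m, hm, hAm⟩ := Ideal.exists_le_maximal A hne
  have hmp : m.IsPrime := hm.isPrime
  have hPm : ∀ {a b : R}, a ∉ m → b ∉ m → a * b ∉ m := fun ha hb hab =>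
    (hmp.mem_or_mem hab).elim ha hb
  have h1m : (1 : R) ∉ m := fun h1 => hmp.ne_top ((Ideal.eq_top_iff_one _).2 h1)
  set S := Localization.AtPrime m with hS
  let φ : R →+* S := algebraMap R S
  have hL : LocAt m ⊥ φ := locAt_localization m
  have key : ∀ v ∈ Triv q ⊥ (fun i => φ (f i)), ∃ s ∉ m, ∃ y ∈ T, ∀ i, φ s * v i = φ (y i) := by
    intro v hv
    induction hv using Submodule.span_induction with
    | mem v hv =>
      obtain ⟨a, ha, rfl⟩ := hv
      have ha' : ∑ i, φ (f i) * a i = 0 := ha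
      choose r t ht hrt using fun i => hL.surj (a i)
      let b : R := ∏ i, t i
      have hb : b ∉ m := fun hmem => by
        obtain ⟨i, _, hi⟩ := (hmp.prod_mem_iff).1 hmem
        exact ht i hi
      let r' : ι → R := fun i => (∏ j ∈ Finset.univ.erase i, t j) * r i
      have hr' : ∀ i, φ b * a i = φ (r' i) := by
        intro i
        have : b = (∏ j ∈ Finset.univ.erase i, t j) * t i :=
          (Finset.prod_erase_mul _ _ (Finset.mem_univ i)).symm
        rw [this, map_mul, mul_assoc, hrt, ← map_mul]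
      have h0 : φ (∑ i, f i * r' i) = 0 := by
        rw [map_sum]
        have : ∑ i, φ (f i * r' i) = φ b * ∑ i, φ (f i) * a i := by
          rw [Finset.mul_sum]
          refine Finset.sum_congr rfl fun i _ => ?_
          rw [map_mul, ← hr']
          ring
        rw [this, ha', mul_zero]
      obtain ⟨u, hu, hu0⟩ := (hL.ker _).1 h0
      refine ⟨(u * b) ^ q, fun hmem => hPm hu hb (hmp.mem_of_pow_mem _ hmem),
        fun i => (u * r' i) ^ q, Submodule.subset_span ⟨fun i => u * r' i, ?_, rfl⟩, ?_⟩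
      · have : ∑ i, f i * (u * r' i) = u * ∑ i, f i * r' i := by
          rw [Finset.mul_sum]
          exact Finset.sum_congr rfl fun i _ => by ring
        rw [this]
        exact hu0
      · intro i
        rw [map_pow, map_pow, map_mul, map_mul, ← hr', mul_pow, mul_pow, mul_pow]
        ring
    | zero => exact ⟨1, h1m, 0, zero_mem _, fun i => by simp⟩
    | add v w _ _ hv hw =>
      obtain ⟨s, hs, y, hy, hsy⟩ := hv
      obtain ⟨t, ht, z, hz, htz⟩ := hw
      refine ⟨s * t, hPm hs ht, t • y + s • z, add_mem (Submodule.smul_mem _ _ hy)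
        (Submodule.smul_mem _ _ hz), fun i => ?_⟩
      simp only [Pi.add_apply, Pi.smul_apply, smul_eq_mul, map_add, map_mul, ← hsy, ← htz]
      ring
    | smul c v _ hv =>
      obtain ⟨s, hs, y, hy, hsy⟩ := hv
      obtain ⟨r, t, ht, hrt⟩ := hL.surj c
      refine ⟨s * t, hPm hs ht, r • y, Submodule.smul_mem _ _ hy, fun i => ?_⟩
      simp only [Pi.smul_apply, smul_eq_mul, map_mul, ← hsy, ← hrt]
      ring
  have hxr : (fun i => φ (x i)) ∈ Rel q (fun i => φ (f i)) := by
    rw [mem_Rel]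
    have : ∑ i, φ (f i) ^ q * φ (x i) = φ (∑ i, f i ^ q * x i) := by
      rw [map_sum]
      exact Finset.sum_congr rfl fun i _ => by rw [map_mul, map_pow]
    rw [this, hx, map_zero]
  obtain ⟨s, hs, y, hy, hsy⟩ := key _ (h m ι _ hxr)
  have h0 : ∀ i, φ (s * x i - y i) = 0 := by
    intro i
    rw [map_sub, map_mul, hsy, sub_self]
  choose u hu hu0 using fun i => (hL.ker _).1 (h0 i)
  let U : R := ∏ i, u i
  have hU : U ∉ m := fun hmem => by
    obtain ⟨i, _, hi⟩ := (hmp.prod_mem_iff).1 hmem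
    exact hu i hi
  apply hPm hU hs
  apply hAm
  rw [hA]
  have : (U * s) • x = U • y := by
    funext i
    simp only [Pi.smul_apply, smul_eq_mul]
    have h1 : U = (∏ j ∈ Finset.univ.erase i, u j) * u i :=
      (Finset.prod_erase_mul _ _ (Finset.mem_univ i)).symm
    have h2 : u i * (s * x i - y i) = 0 := hu0 i
    rw [h1]
    linear_combination (∏ j ∈ Finset.univ.erase i, u j) * h2
  rw [this]
  exact Submodule.smul_mem _ _ hy

theorem eqFlat_of_regularRing [IsRegularRing R] {q : ℕ} (hF : IsFrob R q) : EqFlat R q := by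
  apply eqFlat_of_local
  intro m hm
  have := hm.isPrime
  exact eqFlat_of_regular _ ((locAt_localization m).isFrob hF)

/-- The uniform statement. -/
theorem uniform [IsRegularRing R] {p : ℕ} (hp : 2 ≤ p) (hF : ∀ e, IsFrob R (p ^ e))
    (hJ : ∀ (P : Ideal R) [P.IsPrime], ∃ f : R ⧸ P, f ≠ 0 ∧ ∀ (𝔮 : Ideal (R ⧸ P)) [𝔮.IsPrime],
      f ∉ 𝔮 → IsRegularLocalRing (Localization.AtPrime 𝔮))
    (c : R) (hc : ∀ 𝔮 ∈ minimalPrimes R, c ∉ 𝔮) :
    ∃ e0 : ℕ, ∀ e ≥ e0, ∀ (Q : Ideal R) [Q.IsPrime], c ∉ fpow (p ^ e) Q := by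
  classical
  have hgood : ∀ (P : Ideal R) [P.IsPrime], Good p P ⊥ c := by
    intro P hP
    obtain ⟨fb, hfb, hreg⟩ := hJ P
    obtain ⟨f, rfl⟩ := Ideal.Quotient.mk_surjective fb
    have hf : f ∉ P := fun h => hfb (Ideal.Quotient.eq_zero_iff_mem.2 h)
    have hP' : ∀ (Q : Ideal R) [Q.IsPrime], P ≤ Q → f ∉ Q → IsRegularLocalRing (LQ P Q) := by
      intro Q hQ hPQ hfQ
      have hq : (Q.map (Ideal.Quotient.mk P)).IsPrime :=
        Ideal.map_isPrime_of_surjective Ideal.Quotient.mk_surjective (by rw [Ideal.mk_ker]; exact hPQ)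
      have hmem : Ideal.Quotient.mk P f ∉ Q.map (Ideal.Quotient.mk P) := by
        rw [← Ideal.mem_comap, Ideal.comap_map_of_surjective _ Ideal.Quotient.mk_surjective,
          ← RingHom.ker_eq_comap_bot, Ideal.mk_ker, sup_eq_left.2 hPQ]
        exact hfQ
      exact (locAt_quotient P Q hPQ).regular_iff.1 (hreg _ hmem)
    obtain ⟨S, hS⟩ := Ideal.fg_of_isNoetherianRing P
    refine good_of_gen hp hF P f hf hP' S.card ⊥ bot_le ?_ S le_rfl ?_ ?_ c ?_
    · refine ⟨1, fun h1 => hP.ne_top ((Ideal.eq_top_iff_one _).2 h1), fun Q hQ _ _ => ?_⟩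
      exact (locAt_localization Q).regular_iff.1 inferInstance
    · rw [← hS]
      exact Ideal.subset_span
    · refine ⟨1, fun h1 => hP.ne_top ((Ideal.eq_top_iff_one _).2 h1), fun y hy => ?_⟩
      rw [one_mul, sup_bot_eq, hS]
      exact hy
    · intro s hs h0
      obtain ⟨𝔭, h𝔭, h𝔭P⟩ := Ideal.exists_minimalPrimes_le (I := ⊥) (J := P) bot_le
      have h1 : s * c ∈ 𝔭 := by
        rw [Ideal.mem_bot.1 h0]
        exact zero_mem _
      rcases h𝔭.1.1.mem_or_mem h1 with h2 | h2
      · exact hs (h𝔭P h2)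
      · exact hc 𝔭 h𝔭 h2
  have key : ∀ I : Ideal R, ∃ e0 : ℕ, ∀ e ≥ e0, ∀ (Q : Ideal R) [Q.IsPrime], I ≤ Q →
      c ∉ fpow (p ^ e) Q := by
    intro I
    induction I using IsNoetherian.induction with
    | hgt I ih =>
    by_cases htop : I = ⊤
    · exact ⟨0, fun e _ Q hQ hIQ => absurd (top_le_iff.1 (htop ▸ hIQ)) hQ.ne_top⟩
    by_cases hprime : Ideal.IsPrime I
    · obtain ⟨f', hf', e0, h0⟩ := hgood I
      obtain ⟨e1, h1⟩ := ih (I ⊔ Ideal.span {f'}) (lt_of_le_of_ne le_sup_left (fun h => by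
        apply hf'
        rw [h]
        exact Ideal.mem_sup_right (Ideal.mem_span_singleton_self f')))
      refine ⟨max e0 e1, fun e he Q hQ hIQ hmem => ?_⟩
      by_cases hf'Q : f' ∈ Q
      · exact h1 e (le_trans (le_max_right _ _) he) Q (sup_le hIQ (by
          rw [Ideal.span_singleton_le_iff_mem]; exact hf'Q)) hmem
      · refine h0 e (le_trans (le_max_left _ _) he) Q hIQ hf'Q 1
          (fun h1 => hQ.ne_top ((Ideal.eq_top_iff_one _).2 h1)) ?_
        rw [one_mul, bot_sup_eq]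
        exact hmem
    · obtain ⟨a, ha, b, hb, hab⟩ := (Ideal.not_isPrime_iff.1 hprime).resolve_left htop
      obtain ⟨e0, h0⟩ := ih (I ⊔ Ideal.span {a}) (lt_of_le_of_ne le_sup_left (fun h => by
        apply ha
        rw [h]
        exact Ideal.mem_sup_right (Ideal.mem_span_singleton_self a)))
      obtain ⟨e1, h1⟩ := ih (I ⊔ Ideal.span {b}) (lt_of_le_of_ne le_sup_left (fun h => by
        apply hb
        rw [h]
        exact Ideal.mem_sup_right (Ideal.mem_span_singleton_self b)))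
      refine ⟨max e0 e1, fun e he Q hQ hIQ hmem => ?_⟩
      rcases hQ.mem_or_mem (hIQ hab) with h | h
      · exact h0 e (le_trans (le_max_left _ _) he) Q (sup_le hIQ (by
          rw [Ideal.span_singleton_le_iff_mem]; exact h)) hmem
      · exact h1 e (le_trans (le_max_right _ _) he) Q (sup_le hIQ (by
          rw [Ideal.span_singleton_le_iff_mem]; exact h)) hmem
  obtain ⟨e0, h0⟩ := key ⊥
  exact ⟨e0, fun e he Q hQ => h0 e he Q bot_le⟩

end

end Pool.Agent.Q122.FPR
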